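import Pool.Agent.W425.BF.Stm

/-! Project BF, part COMBA: assembly. -/

set_option autoImplicit false

namespace Pool.Agent.W372.BF

open Pool.Agent.W425.BF
open Pool.Agent.W426.SM (gord face IsRay)
open Pool.Agent.W803.SM (filt)

theorem gord_pos {n k : ℕ} (m : Fin k → Fin n → ℕ) (i : Fin n) (a : Fin n → ℕ)
    (h : Rem m i a) : 0 < gord m a := by
  obtain ⟨⟨hai, j0, hf, hj0, -⟩, -⟩ := h
  have h1 : a i * m j0 i ≤ ∑ x, a x * m j0 x :=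
    Finset.single_le_sum (f := fun x => a x * m j0 x) (fun x _ => Nat.zero_le _)
      (Finset.mem_univ i)
  rw [hf, hj0, mul_one] at h1
  omega

theorem W2_one {n : ℕ} (p : ℕ) (c : Fin n → ℕ) (N : ℕ) (t : ℂ) (u : Fin n → ℕ) :
    W2 p c N 1 t u = (p : ℂ)⁻¹ ^ (∑ x, u x) * t ^ N := by
  rw [W2, one_pow, mul_one]

theorem fac_ne {n : ℕ} (p : ℕ) (hp : 2 ≤ p) (c : Fin n → ℕ) (N : ℕ) (hN : 0 < N) (t : ℂ)
    (ht : ‖t‖ < 1) (u : Fin n → ℕ) : 1 - W2 p c N 1 t u ≠ 0 := by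
  intro h
  have h1 : W2 p c N 1 t u = 1 := (sub_eq_zero.1 h).symm
  have h2 : ‖W2 p c N 1 t u‖ = 1 := by rw [h1, norm_one]
  rw [W2_one, norm_mul, norm_pow, norm_pow, norm_inv, Complex.norm_natCast] at h2
  have hp1 : (1 : ℝ) ≤ p := by exact_mod_cast (by omega : 1 ≤ p)
  have h3 : ((p : ℝ)⁻¹) ^ (∑ x, u x) ≤ 1 :=
    pow_le_one₀ (by positivity) (inv_le_one_of_one_le₀ hp1)
  have h4 : ‖t‖ ^ N < 1 := pow_lt_one₀ (norm_nonneg _) ht hN.ne'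
  have h5 : ((p : ℝ)⁻¹) ^ (∑ x, u x) * ‖t‖ ^ N ≤ 1 * ‖t‖ ^ N :=
    mul_le_mul_of_nonneg_right h3 (by positivity)
  linarith

theorem main : TaskCOMBA := by
  intro hI hII hALG n k m i hk
  classical
  obtain ⟨T₁, ray₁, hray₁, hA⟩ := hI m hk
  obtain ⟨T₂, ray₂, N₂, hray₂, hB⟩ := hII m i hk
  obtain ⟨R, hR⟩ : ∃ R : Finset (Fin T₁), ∀ q, q ∈ R ↔ Rem m i (ray₁ q) :=
    ⟨Finset.univ.filter (fun q => Rem m i (ray₁ q)), fun q => by simp⟩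
  obtain ⟨c, hci, hc⟩ := hALG i ray₁ (fun q => gord m (ray₁ q)) ray₂ N₂ R
    (fun q hq => gord_pos m i _ ((hR q).1 hq)) (fun q' => (hray₂ q').1)
    (fun q hq q' => (hray₂ q').2 _ ((hR q).1 hq))
  obtain ⟨e, -⟩ : ∃ e : {q // ¬ q ∈ R} ≃ Fin (Fintype.card {q // ¬ q ∈ R}), True :=
    ⟨Fintype.equivFin _, trivial⟩
  refine ⟨Fintype.card {q // ¬ q ∈ R}, fun s => ray₁ (e.symm s).1,
    fun s => ⟨hray₁ _, fun h => (e.symm s).2 ((hR _).2 h)⟩, ?_⟩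
  intro p hp E γ hRel
  obtain ⟨A, hA'⟩ := hA p hp c γ
  obtain ⟨B, hB'⟩ := hB p hp c hci E γ hRel
  obtain ⟨A', hA''⟩ := hc p hp A B (fun z t hz ht => by
    rw [← hA' z t hz ht, ← hB' z t hz ht]; ring)
  refine ⟨A', fun t ht => ?_⟩
  have h1 := hA' 1 t (by simp) ht.le
  rw [hA''] at h1
  have hG : Gz m γ p c 1 t =
      ∑' u : Fin n → ℕ, (p : ℂ)⁻¹ ^ (∑ x, u x) * t ^ gord m u * (γ (filt m u)).eval t := by
    unfold Gz
    exact tsum_congr fun u => by rw [W2_one]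
  obtain ⟨g, hg⟩ : ∃ g : Fin T₁ → ℂ, g = fun q => 1 - W2 p c (gord m (ray₁ q)) 1 t (ray₁ q) :=
    ⟨_, rfl⟩
  have hsplit : ∏ q, g q = (∏ q ∈ R, g q) * ∏ x : {q // ¬ q ∈ R}, g x.1 := by
    rw [Finset.prod_subtype R (p := fun q => q ∈ R) (fun _ => Iff.rfl) g]
    exact (Fintype.prod_subtype_mul_prod_subtype (fun q => q ∈ R) g).symm
  have hN : ∏ x : {q // ¬ q ∈ R}, g x.1 =
      ∏ s : Fin (Fintype.card {q // ¬ q ∈ R}), (1 - (p : ℂ)⁻¹ ^ (∑ x, ray₁ (e.symm s).1 x) *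
        t ^ gord m (ray₁ (e.symm s).1)) := by
    rw [← Equiv.prod_comp e.symm (fun x : {q // ¬ q ∈ R} => g x.1)]
    refine Finset.prod_congr rfl fun s _ => ?_
    rw [hg]
    simp only [W2_one]
  have hne : ∏ q ∈ R, g q ≠ 0 := by
    rw [Finset.prod_ne_zero_iff]
    intro q hq
    rw [hg]
    exact fac_ne p hp c _ (gord_pos m i _ ((hR q).1 hq)) t ht _
  have h2 : Gz m γ p c 1 t * ∏ q, g q = A'.eval t * ∏ q ∈ R, g q := by
    rw [hg]; exact h1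
  rw [hsplit] at h2
  rw [← hG, ← hN]
  apply mul_right_cancel₀ hne
  rw [← h2]
  ring

end Pool.Agent.W372.BF
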